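import Pool.Agent.W95.BK.Stm

/-!
# The key local inequality at a fixed type II point (part S_S1 of project BK)
-/

open Polynomial Topology Filter
open Pool.Agent.W95.BK

namespace Pool.Agent.W101.BK

universe u

lemma countP_ineq {α : Type*} (Z : Finset α) (p : α → α → Prop) (A B : α → Prop)
    [∀ z, DecidablePred (p z)] [DecidablePred A] [DecidablePred B] (M : Multiset α)
    (h : ∀ w ∈ M, (∑ z ∈ Z, if p z w then 1 else 0) + (if A w then 1 else 0) ≤
      (if B w then 1 else 0)) :
    ∑ z ∈ Z, M.countP (p z) + M.countP A ≤ M.countP B := by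
  induction M using Multiset.induction_on with
  | empty => simp
  | cons w M ih =>
    have h1 := ih fun w' hw' => h w' (Multiset.mem_cons_of_mem hw')
    have h2 := h w (Multiset.mem_cons_self w M)
    simp only [Multiset.countP_cons, Finset.sum_add_distrib]
    omega

lemma mem_of_countP_eq {α : Type*} (M : Multiset α) (p q : α → Prop) [DecidablePred p]
    [DecidablePred q] (hpq : ∀ w, p w → q w) (h : M.countP q ≤ M.countP p) :
    ∀ w ∈ M, q w → p w := by
  intro w hw hq
  by_contra hp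
  obtain ⟨M', rfl⟩ := Multiset.exists_cons_of_mem hw
  have h1 : M'.countP p ≤ M'.countP q := by
    rw [Multiset.countP_eq_card_filter, Multiset.countP_eq_card_filter]
    exact Multiset.card_le_card (Multiset.monotone_filter_right M' (fun w hw => hpq w hw))
  rw [Multiset.countP_cons_of_pos _ hq, Multiset.countP_cons_of_neg _ hp] at h
  omega

theorem main : S_NWROOT.{u} → S_GEN.{u} → S_NBGEN.{u} → S_NB.{u} → S_GLAM.{u} → S_S1.{u} := by
  classical
  intro hNW hGEN hNBG hNB hGL K _ _ _ f a c r hr hc hfix m hm Z hZa hZ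
  obtain ⟨_, _, hball, houter⟩ := hNB K
  have hcl : ∀ w b : K, lam (cl w) b = ‖w - b‖ := fun w b => (hGL K w b).1
  have hga : ∀ b : K, lam (gauss a r hr) b = max ‖a - b‖ r := fun b => (hGL K a b).2 r hr
  obtain ⟨Ba, _, s₂, _, _, hs₂, hBa⟩ := hNW K f a c r hr hc
  choose B s₁ _t hs0 hs1 _ht hB using fun z : K => hNW K f z c r hr hc
  set U₀ : Set (P1B K) := ball a s₂ ∩ ⋂ z ∈ Z, {x : P1B K | ∀ y : BA K, x = (y : P1B K) →
    s₁ z < lam y z} with hU₀
  have hU₀n : U₀ ∈ 𝓝 ((gauss a r hr : BA K) : P1B K) := by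
    refine IsOpen.mem_nhds ?_ ?_
    · refine (hball a s₂).inter ?_
      exact isOpen_biInter_finset fun z _ => houter z (s₁ z)
    · refine ⟨⟨gauss a r hr, rfl, ?_⟩, ?_⟩
      · rw [hga]
        simp [hs₂, hr.trans hs₂]
      · simp only [Set.mem_iInter]
        intro z hz y hy
        have : gauss a r hr = y := OnePoint.coe_injective hy
        rw [← this, hga]
        exact (hs1 z).trans_le (le_max_right _ _)
  obtain ⟨U, _, hUU, hev⟩ := hm U₀ hU₀n
  rw [hfix] at hev
  obtain ⟨V, hV, hVsub⟩ := Filter.mem_comap.1 hev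
  obtain ⟨B', hB'⟩ := hNBG K a c r hr hc V hV
  have hc0 : c ≠ 0 := by
    intro h
    rw [h, norm_zero] at hc
    exact hr.ne hc
  obtain ⟨b, hba, hbB, _⟩ := hGEN K a c ∅ (Ba ∪ Z.biUnion B ∪ B') hc0 (by simp)
  rw [hc] at hba hbB
  have hcnt : cnt f U b = m := by
    have : b ∈ (fun b : K => ((cl b : BA K) : P1B K)) ⁻¹' V :=
      hB' b hba fun β hβ => hbB β (by simp [hβ])
    exact hVsub this
  obtain ⟨_, _, _, hIw, hIw'⟩ := hBa b hba fun β hβ => hbB β (by simp [hβ])
  have hbz : ∀ z ∈ Z, ‖b - z‖ ≤ r := by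
    intro z hz
    have h1 : b - z = (b - a) + (a - z) := by ring
    rw [h1]
    refine (IsUltrametricDist.norm_add_le_max _ _).trans (max_le hba ?_)
    rw [norm_sub_rev]
    exact hZa z hz
  have hNwz : ∀ z ∈ Z, nIn (f.P - C b * f.Q) {w | ‖w - z‖ < r} = Nw f z r ∧
      nIn (f.P - C b * f.Q) {w | ‖w - z‖ ≤ s₁ z} = Nw f z r := by
    intro z hz
    obtain ⟨_, h1, h2, _⟩ := hB z b (hbz z hz) fun β hβ => hbB β (by
      simp only [Finset.mem_union, Finset.mem_biUnion]
      exact Or.inl (Or.inr ⟨z, hz, hβ⟩))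
    exact ⟨h1, h2⟩
  set M := (f.P - C b * f.Q).roots with hM
  have hnIn : ∀ S : Set K, nIn (f.P - C b * f.Q) S = M.countP (fun w => w ∈ S) := by
    intro S
    rw [nIn, Multiset.countP_eq_card_filter]
  have hcU : cnt f U b = M.countP (fun w => ((cl w : BA K) : P1B K) ∈ U) := by
    have hinf : (OnePoint.infty : P1B K) ∉ U := by
      intro h
      obtain ⟨⟨y, hy, _⟩, _⟩ := hUU h
      exact OnePoint.infty_ne_coe _ hy
    rw [cnt, fib, Multiset.filter_add, Multiset.card_add]
    have e1 : Multiset.filter (fun w => w ∈ U)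
        (Multiset.replicate (f.d - (f.P - C b * f.Q).natDegree) (OnePoint.infty : P1B K)) = 0 := by
      rw [Multiset.filter_eq_nil]
      intro w hw
      rw [Multiset.eq_of_mem_replicate hw]
      exact hinf
    rw [e1, Multiset.card_zero, add_zero, Multiset.filter_map, Multiset.card_map,
      Multiset.countP_eq_card_filter]
    rfl
  have hin : ∀ w ∈ M, ‖w - a‖ < s₂ → ‖w - a‖ ≤ r := by
    refine mem_of_countP_eq M (fun w => ‖w - a‖ ≤ r) (fun w => ‖w - a‖ < s₂)
      (fun w hw => lt_of_le_of_lt hw hs₂) ?_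
    have e1 := hnIn {w | ‖w - a‖ < s₂}
    have e2 := hnIn {w | ‖w - a‖ ≤ r}
    rw [hIw'] at e1
    rw [hIw] at e2
    exact (e1.symm.trans e2).le
  have hout : ∀ z ∈ Z, ∀ w ∈ M, ‖w - z‖ < r → ‖w - z‖ ≤ s₁ z := by
    intro z hz
    refine mem_of_countP_eq M (fun w => ‖w - z‖ ≤ s₁ z) (fun w => ‖w - z‖ < r)
      (fun w hw => lt_of_le_of_lt hw (hs1 z)) ?_
    have e1 := hnIn {w | ‖w - z‖ < r}
    have e2 := hnIn {w | ‖w - z‖ ≤ s₁ z}
    rw [(hNwz z hz).1] at e1
    rw [(hNwz z hz).2] at e2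
    exact (e1.symm.trans e2).le
  have hUa : ∀ w : K, ((cl w : BA K) : P1B K) ∈ U → ‖w - a‖ < s₂ := by
    intro w hw
    obtain ⟨⟨y, hy, hlt⟩, _⟩ := hUU hw
    have : cl w = y := OnePoint.coe_injective hy
    rw [← this, hcl] at hlt
    exact hlt
  have hUz : ∀ w : K, ((cl w : BA K) : P1B K) ∈ U → ∀ z ∈ Z, s₁ z < ‖w - z‖ := by
    intro w hw z hz
    obtain ⟨_, h2⟩ := hUU hw
    simp only [Set.mem_iInter] at h2
    have := h2 z hz (cl w) rfl
    rwa [hcl] at this
  have key := countP_ineq Z (fun z w => ‖w - z‖ < r)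
    (fun w => ((cl w : BA K) : P1B K) ∈ U) (fun w => ‖w - a‖ ≤ r) M (by
      intro w hw
      by_cases hex : ∃ z ∈ Z, ‖w - z‖ < r
      · obtain ⟨z, hz, hwz⟩ := hex
        have hwU : ¬ ((cl w : BA K) : P1B K) ∈ U := by
          intro h
          exact absurd (hUz w h z hz) (not_lt.2 (hout z hz w hw hwz))
        have hwa : ‖w - a‖ ≤ r := by
          have h1 : w - a = (w - z) + (z - a) := by ring
          rw [h1]
          exact (IsUltrametricDist.norm_add_le_max _ _).trans (max_le hwz.le (hZa z hz))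
        have hsum : (∑ z' ∈ Z, if ‖w - z'‖ < r then 1 else 0) = 1 := by
          rw [Finset.sum_eq_single z]
          · simp [hwz]
          · intro z' hz' hne
            rw [if_neg]
            intro hlt
            have h1 : z - z' = (w - z') + (z - w) := by ring
            have h2 : ‖z - z'‖ < r := by
              rw [h1]
              refine (IsUltrametricDist.norm_add_le_max _ _).trans_lt (max_lt hlt ?_)
              rwa [norm_sub_rev]
            exact absurd (hZ z hz z' hz' (Ne.symm hne)) (not_le.2 h2)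
          · intro h
            exact absurd hz h
        rw [hsum, if_neg hwU, if_pos hwa]
      · have hsum : (∑ z' ∈ Z, if ‖w - z'‖ < r then 1 else 0) = 0 := by
          refine Finset.sum_eq_zero fun z' hz' => ?_
          rw [if_neg]
          intro h
          exact hex ⟨z', hz', h⟩
        rw [hsum, zero_add]
        by_cases hwU : ((cl w : BA K) : P1B K) ∈ U
        · rw [if_pos hwU, if_pos (hin w hw (hUa w hwU))]
        · rw [if_neg hwU]
          exact Nat.zero_le _)
  have e1 : ∑ z ∈ Z, Nw f z r = ∑ z ∈ Z, M.countP (fun w => ‖w - z‖ < r) := by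
    refine Finset.sum_congr rfl fun z hz => ?_
    rw [← (hNwz z hz).1, hnIn]
    rfl
  rw [e1, ← hIw, hnIn, ← hcnt, hcU]
  exact key

end Pool.Agent.W101.BK
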